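import Pool.Agent.Y456.BigMap.Final

namespace Pool.Agent.Results.MP_ac6992_gt.NonamenableNoQuasi

open Pool.Agent.Y456.BigMap

/-- The mapping class group of the plane minus the Cantor set has a finitely generated subgroup
which is not amenable and on which every homogeneous quasimorphism is a homomorphism. -/
theorem result : ∃ H : Subgroup (MappingClassGroup planeCantorSet),
    H.FG ∧ ¬ IsAmenable H ∧ dimQTilde H = 0 :=
  main

end Pool.Agent.Results.MP_ac6992_gt.NonamenableNoQuasi
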